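import Mathlib

namespace Pool.Agent.H.MP_267b52_gt

open scoped ContDiff Manifold Bundle
open MeasureTheory

abbrev R3 := EuclideanSpace ℝ (Fin 3)

def Cyl : Set R3 := {p | p 0 ^ 2 + p 1 ^ 2 = 1}

noncomputable def cover (q : ℝ × ℝ) : R3 := !₂[Real.cos q.1, Real.sin q.1, q.2]

def StrictlyConvexOnCyl (V : Set R3) (f : R3 → ℝ) : Prop :=
  ContDiffOn ℝ 2 (f ∘ cover) (cover ⁻¹' V) ∧
    ∀ q ∈ cover ⁻¹' V, ∀ v : ℝ × ℝ, v ≠ 0 → 0 < fderiv ℝ (fderiv ℝ (f ∘ cover)) q v v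

variable {E M F ι : Type} [NormedAddCommGroup E] [NormedSpace ℝ E] [TopologicalSpace M]
  [ChartedSpace E M] [NormedAddCommGroup F] [NormedSpace ℝ F] [Fintype ι]

variable (E) in
noncomputable def dmap (φ : M → F) (x : M) (v : TangentSpace 𝓘(ℝ, E) x) : F :=
  mfderiv 𝓘(ℝ, E) 𝓘(ℝ, F) φ x v

variable (E) in
def SmoothVar (Φ : ℝ × M → F) : Prop :=
  ContMDiff (𝓘(ℝ, ℝ).prod 𝓘(ℝ, E)) 𝓘(ℝ, F) ∞ Φ

variable [Bundle.RiemannianBundle (fun x : M => TangentSpace 𝓘(ℝ, E) x)]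

def IsFrame (b : ∀ x : M, ι → TangentSpace 𝓘(ℝ, E) x) : Prop :=
  ∀ x, Orthonormal ℝ (b x) ∧ Submodule.span ℝ (Set.range (b x)) = ⊤

variable [MeasurableSpace M]

noncomputable def energy (b : ∀ x : M, ι → TangentSpace 𝓘(ℝ, E) x) (μ : Measure M) (φ : M → F) :
    ENNReal :=
  ∫⁻ x, ENNReal.ofReal ((1 / 2) * ∑ i, ‖dmap E φ x (b x i)‖ ^ 2) ∂μ

def IsHarmonic (b : ∀ x : M, ι → TangentSpace 𝓘(ℝ, E) x) (μ : Measure M) (N : Set F)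
    (φ : M → F) : Prop :=
  ContMDiff 𝓘(ℝ, E) 𝓘(ℝ, F) ∞ φ ∧ (∀ x, φ x ∈ N) ∧ energy b μ φ ≠ ⊤ ∧
    ∀ Φ : ℝ × M → F, SmoothVar E Φ → (∀ p, Φ p ∈ N) → (∀ x, Φ (0, x) = φ x) →
      HasDerivAt (fun t : ℝ => (energy b μ fun x => Φ (t, x)).toReal) 0 0

def NoHarmonicIn (N V : Set F) : Prop :=
  ∀ (E M ι : Type) [NormedAddCommGroup E] [NormedSpace ℝ E] [FiniteDimensional ℝ E]
    [TopologicalSpace M] [T2Space M] [CompactSpace M] [ConnectedSpace M] [ChartedSpace E M]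
    [IsManifold 𝓘(ℝ, E) ∞ M] [Bundle.RiemannianBundle (fun x : M => TangentSpace 𝓘(ℝ, E) x)]
    [IsContinuousRiemannianBundle E (fun x : M => TangentSpace 𝓘(ℝ, E) x)]
    [MeasurableSpace M] [BorelSpace M] (μ : Measure M) [μ.IsOpenPosMeasure] [Fintype ι]
    (b : ∀ x : M, ι → TangentSpace 𝓘(ℝ, E) x) (φ : M → F),
    IsFrame b → IsHarmonic b μ N φ → (∀ x, φ x ∈ V) → ∀ x y, φ x = φ y

end Pool.Agent.H.MP_267b52_gt
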