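import Pool.Agent.H.MP_267b52_gt.Defs

namespace Pool.Agent.H.MP_267b52_gt

open scoped ContDiff Manifold Bundle
open MeasureTheory Filter Topology Set Real

def VV : Set R3 := {p | p ∈ Cyl ∧ ¬ (p 0 = 1 ∧ 0 ≤ p 2) ∧ ¬ (p 0 = -1 ∧ p 2 ≤ 0)}

theorem cover_mem (q : ℝ × ℝ) : cover q ∈ VV ↔
    ¬ (cos q.1 = 1 ∧ 0 ≤ q.2) ∧ ¬ (cos q.1 = -1 ∧ q.2 ≤ 0) := by
  simp [VV, Cyl, cover]

theorem open_pre : IsOpen (cover ⁻¹' VV) := by
  have : cover ⁻¹' VV = ({q : ℝ × ℝ | cos q.1 = 1} ∩ {q | 0 ≤ q.2})ᶜ ∩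
      ({q : ℝ × ℝ | cos q.1 = -1} ∩ {q | q.2 ≤ 0})ᶜ := by
    ext q
    simp only [mem_preimage, cover_mem]
    rfl
  rw [this]
  refine IsOpen.inter (isOpen_compl_iff.2 (IsClosed.inter ?_ ?_))
    (isOpen_compl_iff.2 (IsClosed.inter ?_ ?_))
  · exact isClosed_eq (by fun_prop) (by fun_prop)
  · exact isClosed_le (by fun_prop) (by fun_prop)
  · exact isClosed_eq (by fun_prop) (by fun_prop)
  · exact isClosed_le (by fun_prop) (by fun_prop)

theorem no_convex (f : R3 → ℝ) : ¬ StrictlyConvexOnCyl VV f := by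
  rintro ⟨hc, hp⟩
  set F := f ∘ cover with hF
  set W := cover ⁻¹' VV with hW
  have c2 : ∀ q ∈ W, ContDiffAt ℝ 2 F q := fun q hq => hc.contDiffAt (open_pre.mem_nhds hq)
  have c1 : ∀ q ∈ W, ContDiffAt ℝ 1 (fderiv ℝ F) q := fun q hq =>
    (c2 q hq).fderiv_right (by norm_num)
  let l : ℝ → ℝ → ℝ × ℝ := fun ε s => (s, ε * (s - π / 2))
  have hl : ∀ ε s, HasDerivAt (l ε) ((1, ε) : ℝ × ℝ) s := by
    intro ε s
    refine (hasDerivAt_id s).prodMk ?_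
    simpa using ((hasDerivAt_id s).sub_const (π / 2)).const_mul ε
  have mono : ∀ ε a b, (∀ s ∈ Icc a b, l ε s ∈ W) →
      StrictMonoOn (fun s => fderiv ℝ F (l ε s) (1, ε)) (Icc a b) := by
    intro ε a b h
    have hd : ∀ s ∈ Icc a b, HasDerivAt (fun s => fderiv ℝ F (l ε s) (1, ε))
        (fderiv ℝ (fderiv ℝ F) (l ε s) (1, ε) (1, ε)) s := by
      intro s hs
      have h2 := ((c1 _ (h s hs)).differentiableAt (by norm_num)).hasFDerivAt
      have := (h2.comp_hasDerivAt s (hl ε s)).clm_apply (hasDerivAt_const s ((1, ε) : ℝ × ℝ))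
      simpa using this
    refine strictMonoOn_of_deriv_pos (convex_Icc a b)
      (fun s hs => (hd s hs).continuousAt.continuousWithinAt) fun s hs => ?_
    have hs' := interior_subset hs
    rw [(hd s hs').deriv]
    exact hp _ (h s hs') _ (by simp)
  have hpi := pi_pos
  have k1 : ∀ s, -(π / 2) ≤ s → s ≤ 3 * π / 2 → cos s = 1 → s = 0 := fun s a b h =>
    (cos_eq_one_iff_of_lt_of_lt (by linarith) (by linarith)).1 h
  have k2 : ∀ s, -(π / 2) ≤ s → s ≤ 3 * π / 2 → cos s = -1 → s = π := by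
    intro s a b h
    have : cos (s - π) = 1 := by rw [cos_sub_pi, h, neg_neg]
    have := (cos_eq_one_iff_of_lt_of_lt (by linarith) (by linarith)).1 this
    linarith
  have in0 : ∀ s ∈ Icc (-(π / 2)) (-(π / 4)), l 0 s ∈ W := by
    intro s hs
    refine (cover_mem _).2 ⟨fun h => ?_, fun h => ?_⟩
    · have := k1 s hs.1 (by linarith [hs.2]) h.1
      linarith [hs.2]
    · have := k2 s hs.1 (by linarith [hs.2]) h.1
      linarith [hs.2]
  have inε : ∀ ε, 0 < ε → ∀ s ∈ Icc (-(π / 2)) (3 * π / 2), l ε s ∈ W := by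
    intro ε hε s hs
    refine (cover_mem _).2 ⟨fun h => ?_, fun h => ?_⟩
    · have h1 := k1 s hs.1 hs.2 h.1
      have h2 : 0 ≤ ε * (s - π / 2) := h.2
      rw [h1] at h2
      nlinarith
    · have h1 := k2 s hs.1 hs.2 h.1
      have h2 : ε * (s - π / 2) ≤ 0 := h.2
      rw [h1] at h2
      nlinarith
  have lt0 := mono 0 _ _ in0 (left_mem_Icc.2 (by linarith)) (right_mem_Icc.2 (by linarith))
    (by linarith)
  have lim : ∀ s, l 0 s ∈ W → Tendsto (fun ε => fderiv ℝ F (l ε s) (1, ε)) (𝓝[>] 0)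
      (𝓝 (fderiv ℝ F (l 0 s) (1, 0))) := by
    intro s hs
    refine Tendsto.mono_left ?_ nhdsWithin_le_nhds
    have a : ContinuousAt (fun ε => fderiv ℝ F (l ε s)) 0 :=
      ContinuousAt.comp (f := fun ε => l ε s) (c1 _ hs).continuousAt (by fun_prop)
    exact a.clm_apply (g := fun ε : ℝ => ((1, ε) : ℝ × ℝ)) (by fun_prop)
  have w3 : l 0 (3 * π / 2) ∈ W := by
    have : cos (3 * π / 2) = 0 := by
      rw [show 3 * π / 2 = π / 2 + π by ring, cos_add_pi, cos_pi_div_two, neg_zero]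
    refine (cover_mem _).2 ⟨fun h => ?_, fun h => ?_⟩
    · have h1 : cos (3 * π / 2) = 1 := h.1
      linarith
    · have h1 : cos (3 * π / 2) = -1 := h.1
      linarith
  have le1 := le_of_tendsto_of_tendsto (lim _ (in0 _ (right_mem_Icc.2 (by linarith)))) (lim _ w3)
    (by
      filter_upwards [self_mem_nhdsWithin] with ε hε
      exact (mono ε _ _ (inε ε hε) ⟨by linarith, by linarith⟩ (right_mem_Icc.2 (by linarith))
        (by linarith)).le)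
  have per : (fun q : ℝ × ℝ => F (q + (2 * π, 0))) = F := by
    funext q
    simp [hF, cover]
  have e : fderiv ℝ F (l 0 (3 * π / 2)) = fderiv ℝ F (l 0 (-(π / 2))) := by
    have e1 : fderiv ℝ F (l 0 (-(π / 2))) = fderiv ℝ F (l 0 (-(π / 2)) + (2 * π, 0)) := by
      rw [← fderiv_comp_add_right, per]
    rw [e1]
    congr 1
    ext
    · simp only [l, Prod.fst_add]
      ring
    · simp [l]
  rw [e] at le1
  exact absurd lt0 (not_lt.2 le1)

theorem crit_zero {M : Type} [MeasurableSpace M] (μ : Measure M) (e : ℝ → M → ℝ) (c : M → ℝ)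
    (h0 : ∀ x, 0 ≤ e 0 x) (hc : ∀ x, 0 ≤ c x)
    (hlo : ∀ t ∈ Ioc (0 : ℝ) 1, ∀ x, e 0 x + t * c x ≤ e t x)
    (hhi : ∀ t ∈ Ioc (0 : ℝ) 1, ∀ x, e t x ≤ 4 * e 0 x)
    (hfin : ∫⁻ x, ENNReal.ofReal (e 0 x) ∂μ ≠ ⊤)
    (hd : HasDerivAt (fun t => (∫⁻ x, ENNReal.ofReal (e t x) ∂μ).toReal) 0 0) :
    ∫⁻ x, ENNReal.ofReal (c x) ∂μ = 0 := by
  set E := fun t => ∫⁻ x, ENNReal.ofReal (e t x) ∂μ with hE
  set C := ∫⁻ x, ENNReal.ofReal (c x) ∂μ with hC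
  have fin : ∀ t ∈ Ioc (0 : ℝ) 1, E t ≠ ⊤ := by
    intro t ht
    have : E t ≤ ENNReal.ofReal 4 * E 0 := by
      rw [hE, ← lintegral_const_mul' _ _ ENNReal.ofReal_ne_top]
      refine lintegral_mono fun x => ?_
      rw [← ENNReal.ofReal_mul (by norm_num)]
      exact ENNReal.ofReal_le_ofReal (hhi t ht x)
    exact ne_top_of_le_ne_top (ENNReal.mul_ne_top ENNReal.ofReal_ne_top hfin) this
  have lo : ∀ t ∈ Ioc (0 : ℝ) 1, E 0 + ENNReal.ofReal t * C ≤ E t := by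
    intro t ht
    rw [hC, ← lintegral_const_mul' _ _ ENNReal.ofReal_ne_top]
    refine (le_lintegral_add _ _).trans (lintegral_mono fun x => ?_)
    rw [← ENNReal.ofReal_mul ht.1.le, ← ENNReal.ofReal_add (h0 x) (mul_nonneg ht.1.le (hc x))]
    exact ENNReal.ofReal_le_ofReal (hlo t ht x)
  have cfin : C ≠ ⊤ := by
    have := lo 1 ⟨one_pos, le_rfl⟩
    rw [ENNReal.ofReal_one, one_mul] at this
    exact ne_top_of_le_ne_top (fin 1 ⟨one_pos, le_rfl⟩) (le_add_self.trans this)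
  have hs := hasDerivAt_iff_tendsto_slope_zero.1 hd
  have hs' := hs.mono_left (nhdsGT_le_nhdsNE (0 : ℝ))
  have : C.toReal ≤ 0 := by
    refine ge_of_tendsto hs' ?_
    filter_upwards [Ioc_mem_nhdsGT one_pos] with t ht
    have h1 := ENNReal.toReal_mono (fin t ht) (lo t ht)
    rw [ENNReal.toReal_add hfin (ENNReal.mul_ne_top ENNReal.ofReal_ne_top cfin),
      ENNReal.toReal_mul, ENNReal.toReal_ofReal ht.1.le] at h1
    simp only [zero_add, smul_eq_mul]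
    rw [inv_mul_eq_div, le_div_iff₀ ht.1]
    linarith
  have h2 : C.toReal = 0 := le_antisymm this ENNReal.toReal_nonneg
  exact ((ENNReal.toReal_eq_zero_iff C).1 h2).resolve_right cfin

variable {E M ι : Type} [NormedAddCommGroup E] [NormedSpace ℝ E] [TopologicalSpace M]
  [ChartedSpace E M] [Fintype ι]

theorem dmap_comp {F G : Type} [NormedAddCommGroup F] [NormedSpace ℝ F] [NormedAddCommGroup G]
    [NormedSpace ℝ G] {φ : M → F} {x : M} (hφ : MDifferentiableAt 𝓘(ℝ, E) 𝓘(ℝ, F) φ x) {g : F → G}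
    {g' : F →L[ℝ] G} (hg : HasFDerivAt g g' (φ x)) (v : TangentSpace 𝓘(ℝ, E) x) :
    dmap E (g ∘ φ) x v = g' (dmap E φ x v) := by
  unfold dmap
  rw [(hg.hasMFDerivAt.comp x hφ.hasMFDerivAt).mfderiv]
  rfl

theorem var_smooth {F : Type} [NormedAddCommGroup F] [NormedSpace ℝ F] (G : ℝ → F → R3)
    (hG : ContDiff ℝ ∞ fun q : ℝ × F => G q.1 q.2) {φ : M → F}
    (hs : ContMDiff 𝓘(ℝ, E) 𝓘(ℝ, F) ∞ φ) :
    SmoothVar E fun p : ℝ × M => G p.1 (φ p.2) := by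
  have h1 : ContMDiff (𝓘(ℝ, ℝ).prod 𝓘(ℝ, E)) 𝓘(ℝ, ℝ × F) ∞ fun p : ℝ × M => (p.1, φ p.2) :=
    contMDiff_fst.prodMk_space (hs.comp contMDiff_snd)
  exact hG.comp_contMDiff h1

variable [IsManifold 𝓘(ℝ, E) ∞ M]

theorem chart_fderiv {u : M → ℝ} (hu : ContMDiff 𝓘(ℝ, E) 𝓘(ℝ, ℝ) ∞ u) (x₀ : M)
    {z : E} (hz : z ∈ (extChartAt 𝓘(ℝ, E) x₀).target)
    (w : E) :
    fderiv ℝ (u ∘ (extChartAt 𝓘(ℝ, E) x₀).symm) z w = dmap E u ((extChartAt 𝓘(ℝ, E) x₀).symm z)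
      (mfderivWithin 𝓘(ℝ, E) 𝓘(ℝ, E) (extChartAt 𝓘(ℝ, E) x₀).symm
        (range 𝓘(ℝ, E)) z w) := by
  have h1 := mdifferentiableWithinAt_extChartAt_symm hz
  have h2 := (hu.mdifferentiableAt (by simp) (x := (extChartAt 𝓘(ℝ, E) x₀).symm z)).hasMFDerivAt
  have h3 := h2.comp_hasMFDerivWithinAt z h1.hasMFDerivWithinAt
  have hr : range 𝓘(ℝ, E) = univ := ModelWithCorners.Boundaryless.range_eq_univ
  have h4 : HasFDerivWithinAt (u ∘ (extChartAt 𝓘(ℝ, E) x₀).symm)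
      (show E →L[ℝ] ℝ from _) (range 𝓘(ℝ, E)) z :=
    hasMFDerivWithinAt_iff_hasFDerivWithinAt.1 h3
  have h5 := h4.hasFDerivAt (by rw [hr]; exact univ_mem)
  exact congrArg (fun L : E →L[ℝ] ℝ => L w) h5.fderiv

theorem chart_smooth {u : M → ℝ} (hu : ContMDiff 𝓘(ℝ, E) 𝓘(ℝ, ℝ) ∞ u) (x₀ : M) :
    ContDiffAt ℝ 1 (u ∘ (extChartAt 𝓘(ℝ, E) x₀).symm) (extChartAt 𝓘(ℝ, E) x₀ x₀) := by
  have h := (contMDiffAt_iff.1 (hu x₀)).2
  have hr : range 𝓘(ℝ, E) = univ := ModelWithCorners.Boundaryless.range_eq_univ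
  rw [hr, contDiffWithinAt_univ] at h
  exact (h.of_le (by norm_cast)).congr_of_eventuallyEq (Eventually.of_forall fun _ => rfl)

variable [Bundle.RiemannianBundle (fun x : M => TangentSpace 𝓘(ℝ, E) x)]
  [IsContinuousRiemannianBundle E (fun x : M => TangentSpace 𝓘(ℝ, E) x)]
  [MeasurableSpace M] [BorelSpace M]

theorem cs_bound (b : ∀ x : M, OrthonormalBasis ι ℝ (TangentSpace 𝓘(ℝ, E) x)) (u : M → ℝ)
    (x : M) (v : TangentSpace 𝓘(ℝ, E) x) :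
    (dmap E u x v) ^ 2 ≤ ‖v‖ ^ 2 * ∑ i, (dmap E u x (b x i)) ^ 2 := by
  have e : dmap E u x v = ∑ i, inner ℝ (b x i) v * dmap E u x (b x i) := by
    conv_lhs => rw [← (b x).sum_repr' v]
    unfold dmap
    rw [map_sum]
    simp only [map_smul]
    rfl
  rw [e, ← (b x).sum_sq_inner_right v]
  exact Finset.sum_mul_sq_le_sq_mul_sq _ _ _

attribute [local instance] normedAddCommGroupTangentSpaceVectorSpace
  normedSpaceTangentSpaceVectorSpace in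
theorem dzero (b : ∀ x : M, OrthonormalBasis ι ℝ (TangentSpace 𝓘(ℝ, E) x)) (μ : Measure M)
    [μ.IsOpenPosMeasure] {u : M → ℝ} (hu : ContMDiff 𝓘(ℝ, E) 𝓘(ℝ, ℝ) ∞ u)
    (h : ∫⁻ x, ENNReal.ofReal (∑ i, (dmap E u x (b x i)) ^ 2) ∂μ = 0) (x₀ : M)
    (w : E) :
    fderiv ℝ (u ∘ (extChartAt 𝓘(ℝ, E) x₀).symm) (extChartAt 𝓘(ℝ, E) x₀ x₀) w = 0 := by
  by_contra hne
  obtain ⟨C, hC, hev⟩ := eventually_norm_mfderivWithin_symm_extChartAt_comp_lt 𝓘(ℝ, E) x₀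
  set d := fderiv ℝ (u ∘ (extChartAt 𝓘(ℝ, E) x₀).symm) (extChartAt 𝓘(ℝ, E) x₀ x₀) w with hd
  have hw : w ≠ 0 := by
    rintro rfl
    simp at hd
    exact hne hd
  have c1 : ContinuousAt (fun y => (fderiv ℝ (u ∘ (extChartAt 𝓘(ℝ, E) x₀).symm)
      (extChartAt 𝓘(ℝ, E) x₀ y) w) ^ 2) x₀ := by
    have a := ((chart_smooth hu x₀).fderiv_right (m := 0) (by norm_num)).continuousAt
    have a2 := ContinuousAt.comp (f := extChartAt 𝓘(ℝ, E) x₀) a (continuousAt_extChartAt x₀)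
    exact (a2.clm_apply continuousAt_const).pow 2
  have dp : 0 < d ^ 2 := by positivity
  have ev := c1.eventually (lt_mem_nhds (show d ^ 2 / 2 < d ^ 2 by linarith))
  have wp : 0 < ‖w‖ := norm_pos_iff.2 hw
  have ev2 : ∀ᶠ y in 𝓝 x₀, d ^ 2 / 2 / (C * ‖w‖) ^ 2 ≤ ∑ i, (dmap E u y (b y i)) ^ 2 := by
    filter_upwards [ev, hev, extChartAt_source_mem_nhds (I := 𝓘(ℝ, E)) x₀] with y h1 h2 h3
    rw [chart_fderiv hu x₀ ((extChartAt 𝓘(ℝ, E) x₀).map_source h3)] at h1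
    have h4 := cs_bound b u _ (mfderivWithin 𝓘(ℝ, E) 𝓘(ℝ, E)
      (extChartAt 𝓘(ℝ, E) x₀).symm (range 𝓘(ℝ, E)) (extChartAt 𝓘(ℝ, E) x₀ y) w)
    have h5 := (mfderivWithin 𝓘(ℝ, E) 𝓘(ℝ, E)
      (extChartAt 𝓘(ℝ, E) x₀).symm (range 𝓘(ℝ, E)) (extChartAt 𝓘(ℝ, E) x₀ y)).le_opNorm w
    have h6 : ‖mfderivWithin 𝓘(ℝ, E) 𝓘(ℝ, E)
      (extChartAt 𝓘(ℝ, E) x₀).symm (range 𝓘(ℝ, E)) (extChartAt 𝓘(ℝ, E) x₀ y) w‖ ≤ C * ‖w‖ :=
      h5.trans (mul_le_mul_of_nonneg_right h2.le wp.le)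
    have h7 := pow_le_pow_left₀ (norm_nonneg _) h6 2
    have h8 : (fun y => ∑ i, (dmap E u y (b y i)) ^ 2)
        ((extChartAt 𝓘(ℝ, E) x₀).symm (extChartAt 𝓘(ℝ, E) x₀ y)) =
        ∑ i, (dmap E u y (b y i)) ^ 2 := by rw [(extChartAt 𝓘(ℝ, E) x₀).left_inv h3]
    simp only at h8
    rw [h8] at h4
    rw [div_le_iff₀ (by positivity)]
    have h9 : 0 ≤ ∑ i, (dmap E u y (b y i)) ^ 2 := by positivity
    nlinarith
  obtain ⟨U, hU, Uo, xU⟩ := mem_nhds_iff.1 ev2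
  have : ENNReal.ofReal (d ^ 2 / 2 / (C * ‖w‖) ^ 2) * μ U ≤ 0 := by
    rw [← h, ← lintegral_indicator_const Uo.measurableSet]
    refine lintegral_mono fun y => ?_
    by_cases hy : y ∈ U
    · rw [indicator_of_mem hy]
      exact ENNReal.ofReal_le_ofReal (hU hy)
    · rw [indicator_of_notMem hy]
      exact zero_le
  rcases mul_eq_zero.1 (le_zero_iff.1 this) with h1 | h1
  · rw [ENNReal.ofReal_eq_zero] at h1
    exact absurd h1 (not_le.2 (by positivity))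
  · exact (Uo.measure_pos μ ⟨x₀, xU⟩).ne' h1

theorem const_of [ConnectedSpace M] (b : ∀ x : M, OrthonormalBasis ι ℝ (TangentSpace 𝓘(ℝ, E) x))
    (μ : Measure M) [μ.IsOpenPosMeasure] {u : M → ℝ} (hu : ContMDiff 𝓘(ℝ, E) 𝓘(ℝ, ℝ) ∞ u)
    (h : ∫⁻ x, ENNReal.ofReal (∑ i, (dmap E u x (b x i)) ^ 2) ∂μ = 0) (x y : M) : u x = u y := by
  have z : ∀ x (v : TangentSpace 𝓘(ℝ, E) x), dmap E u x v = 0 := by
    intro x v
    have := dzero b μ hu h x v
    unfold dmap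
    rw [(hu.mdifferentiableAt (by simp) (x := x)).mfderiv,
      ModelWithCorners.Boundaryless.range_eq_univ, fderivWithin_univ]
    exact this
  refine IsLocallyConstant.apply_eq_of_preconnectedSpace ?_ x y
  refine (IsLocallyConstant.iff_eventually_eq u).2 fun x₀ => ?_
  obtain ⟨r, hr, hb⟩ := Metric.mem_nhds_iff.1 (extChartAt_target_mem_nhds (I := 𝓘(ℝ, E)) x₀)
  have hd : DifferentiableOn ℝ (u ∘ (extChartAt 𝓘(ℝ, E) x₀).symm)
      (Metric.ball (extChartAt 𝓘(ℝ, E) x₀ x₀) r) := by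
    have h1 := (hu.comp_contMDiffOn (contMDiffOn_extChartAt_symm (n := ∞) x₀)).contDiffOn
    exact (h1.differentiableOn (by simp)).mono hb
  filter_upwards [(continuousAt_extChartAt (I := 𝓘(ℝ, E)) x₀).preimage_mem_nhds
    (Metric.ball_mem_nhds _ hr), extChartAt_source_mem_nhds (I := 𝓘(ℝ, E)) x₀] with y h1 h2
  have := Metric.isOpen_ball.is_const_of_fderiv_eq_zero (convex_ball _ _).isPreconnected hd
    (fun z' hz => by
      ext w
      exact (chart_fderiv hu x₀ (hb hz) w).trans (z _ _)) h1 (Metric.mem_ball_self hr)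
  simp only [Function.comp_apply] at this
  rwa [(extChartAt 𝓘(ℝ, E) x₀).left_inv h2, extChartAt_to_inv] at this

theorem crit2 [ConnectedSpace M]
    (b : ∀ x : M, OrthonormalBasis ι ℝ (TangentSpace 𝓘(ℝ, E) x))
    (μ : Measure M) [μ.IsOpenPosMeasure] (Φ : ℝ → M → R3) {u : M → ℝ}
    (hu : ContMDiff 𝓘(ℝ, E) 𝓘(ℝ, ℝ) ∞ u)
    (hlo : ∀ t ∈ Ioc (0 : ℝ) 1, ∀ x v, (1 / 2) * ‖dmap E (Φ 0) x v‖ ^ 2 + t * (dmap E u x v) ^ 2 ≤
      (1 / 2) * ‖dmap E (Φ t) x v‖ ^ 2)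
    (hhi : ∀ t ∈ Ioc (0 : ℝ) 1, ∀ x v, ‖dmap E (Φ t) x v‖ ^ 2 ≤ 4 * ‖dmap E (Φ 0) x v‖ ^ 2)
    (hfin : energy (fun x => b x) μ (Φ 0) ≠ ⊤)
    (hd : HasDerivAt (fun t => (energy (fun x => b x) μ (Φ t)).toReal) 0 0) (x y : M) : u x = u y := by
  refine const_of b μ hu ?_ x y
  unfold energy at hfin hd
  refine crit_zero μ (fun t x => (1 / 2) * ∑ i, ‖dmap E (Φ t) x (b x i)‖ ^ 2)
    (fun x => ∑ i, (dmap E u x (b x i)) ^ 2)
    (fun x => mul_nonneg (by norm_num) (Finset.sum_nonneg fun _ _ => sq_nonneg _))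
    (fun x => Finset.sum_nonneg fun _ _ => sq_nonneg _) ?_ ?_ hfin hd
  · intro t ht x
    simp only [Finset.mul_sum, ← Finset.sum_add_distrib]
    exact Finset.sum_le_sum fun i _ => hlo t ht x _
  · intro t ht x
    simp only [Finset.mul_sum]
    exact Finset.sum_le_sum fun i _ => by linarith [hhi t ht x (b x i)]

theorem nsq (v : R3) : ‖v‖ ^ 2 = v 0 ^ 2 + v 1 ^ 2 + v 2 ^ 2 := by
  rw [EuclideanSpace.real_norm_sq_eq, Fin.sum_univ_three]

noncomputable def pr (i : Fin 3) : R3 →L[ℝ] ℝ := EuclideanSpace.proj i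

noncomputable def LL (t : ℝ) : R3 →L[ℝ] R3 :=
  ContinuousLinearMap.id ℝ R3 + (t • pr 2).smulRight (EuclideanSpace.single 2 1)

theorem LL0 (t : ℝ) (v : R3) : LL t v 0 = v 0 := by simp [LL]
theorem LL1 (t : ℝ) (v : R3) : LL t v 1 = v 1 := by simp [LL]
theorem LL2 (t : ℝ) (v : R3) : LL t v 2 = (1 + t) * v 2 := by
  simp [LL, pr]
  ring

theorem height [ConnectedSpace M] (b : ∀ x : M, OrthonormalBasis ι ℝ (TangentSpace 𝓘(ℝ, E) x))
    (μ : Measure M) [μ.IsOpenPosMeasure] {φ : M → R3} (h : IsHarmonic (fun x => b x) μ Cyl φ) (x y : M) :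
    φ x 2 = φ y 2 := by
  obtain ⟨hs, hc, hf, hv⟩ := h
  have md : ∀ x, MDifferentiableAt 𝓘(ℝ, E) 𝓘(ℝ, R3) φ x := fun x => hs.mdifferentiableAt (by simp)
  have e1 : ∀ t x v, dmap E (fun x => LL t (φ x)) x v = LL t (dmap E φ x v) := fun t x v =>
    dmap_comp (md x) (LL t).hasFDerivAt v
  have e2 : ∀ x v, dmap E (pr 2 ∘ φ) x v = (dmap E φ x v) 2 := fun x v =>
    dmap_comp (md x) (pr 2).hasFDerivAt v
  have hG : ContDiff ℝ ∞ fun q : ℝ × R3 => LL q.1 q.2 := by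
    simp only [LL, ContinuousLinearMap.add_apply, ContinuousLinearMap.id_apply,
      ContinuousLinearMap.smulRight_apply, ContinuousLinearMap.smul_apply]
    fun_prop
  have hd := hv (fun p => LL p.1 (φ p.2)) (var_smooth (fun t v => LL t v) hG hs)
    (fun p => by
      have := hc p.2
      simp only [Cyl, mem_setOf_eq, LL0, LL1] at this ⊢
      exact this)
    (fun x => by simp [LL])
  have L0 : (fun x => LL 0 (φ x)) = φ := by
    funext x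
    simp [LL]
  dsimp only at hd
  refine crit2 b μ (fun t x => LL t (φ x)) ((pr 2).contDiff.comp_contMDiff hs) ?_ ?_
    (by rw [L0]; exact hf) hd x y
  · intro t ht x v
    rw [e1, e1, e2, nsq, nsq]
    simp only [LL0, LL1, LL2]
    generalize dmap E φ x v = w
    nlinarith [sq_nonneg (t * w 2)]
  · intro t ht x v
    rw [e1, e1, nsq, nsq]
    simp only [LL0, LL1, LL2]
    generalize dmap E φ x v = w
    have h1 : (1 + t) ^ 2 ≤ 4 := by nlinarith [ht.1, ht.2]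
    nlinarith [sq_nonneg (w 0), sq_nonneg (w 1), sq_nonneg (w 2)]

theorem half_angle {p q : ℝ} (h : p ^ 2 + q ^ 2 = 1) (hp : 1 + p ≠ 0) :
    cos (2 * arctan (q / (1 + p))) = p ∧ sin (2 * arctan (q / (1 + p))) = q := by
  set s := q / (1 + p) with hs
  have h1 : 0 < 1 + s ^ 2 := by positivity
  have h2 : √(1 + s ^ 2) ^ 2 = 1 + s ^ 2 := sq_sqrt h1.le
  have h3 : √(1 + s ^ 2) ≠ 0 := (sqrt_pos.2 h1).ne'
  have h4 : (1 + s ^ 2) * (1 + p) = 2 := by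
    rw [hs]
    field_simp
    linear_combination h
  have h5 : s * (1 + p) = q := by
    rw [hs]
    field_simp
  constructor
  · rw [cos_two_mul, cos_arctan, div_pow, h2]
    field_simp
    linear_combination -h4
  · rw [sin_two_mul, cos_arctan, sin_arctan, mul_assoc, div_mul_div_comm, ← sq, h2]
    field_simp
    linear_combination (-s) * h4 + (1 + s ^ 2) * h5

noncomputable def vec (a c d : ℝ) : R3 :=
  a • EuclideanSpace.single 0 1 + c • EuclideanSpace.single 1 1 + d • EuclideanSpace.single 2 1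

theorem vec0 (a c d : ℝ) : vec a c d 0 = a := by simp [vec]
theorem vec1 (a c d : ℝ) : vec a c d 1 = c := by simp [vec]
theorem vec2 (a c d : ℝ) : vec a c d 2 = d := by simp [vec]

noncomputable def GG (σ y t s : ℝ) : R3 := vec (σ * cos ((1 + t) * s)) (σ * sin ((1 + t) * s)) y

theorem GG_deriv (σ y t s : ℝ) : HasDerivAt (GG σ y t)
    (vec (σ * (-sin ((1 + t) * s) * (1 + t))) (σ * (cos ((1 + t) * s) * (1 + t))) 0) s := by
  have hl : HasDerivAt (fun s => (1 + t) * s) (1 + t) s := by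
    simpa using (hasDerivAt_id s).const_mul (1 + t)
  exact (((hl.cos.const_mul σ).smul_const _).add ((hl.sin.const_mul σ).smul_const _)).add
    ((hasDerivAt_const s y).smul_const _)

theorem GG_smooth (σ y : ℝ) : ContDiff ℝ ∞ fun q : ℝ × ℝ => GG σ y q.1 q.2 := by
  simp only [GG, vec]
  fun_prop

theorem GG_cyl {σ : ℝ} (hσ : σ ^ 2 = 1) (y t s : ℝ) : GG σ y t s ∈ Cyl := by
  simp only [Cyl, GG, mem_setOf_eq, vec0, vec1]
  linear_combination σ ^ 2 * sin_sq_add_cos_sq ((1 + t) * s) + hσ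

noncomputable def ang (σ : ℝ) (p : R3) : ℝ := 2 * arctan (σ * p 1 / (1 + σ * p 0))

theorem ang_smooth {σ : ℝ} {p : R3} (h : 1 + σ * p 0 ≠ 0) : ContDiffAt ℝ ∞ (ang σ) p := by
  have h1 : ContDiffAt ℝ ∞ (fun p : R3 => σ * p 1 / (1 + σ * p 0)) p :=
    ContDiffAt.div (by fun_prop) (by fun_prop) h
  exact contDiffAt_const.mul (contDiff_arctan.contDiffAt.comp p h1)

theorem GG_ang {σ : ℝ} (hσ : σ ^ 2 = 1) {p : R3} (hp : p ∈ Cyl) (h : 1 + σ * p 0 ≠ 0) :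
    GG σ (p 2) 0 (ang σ p) = p := by
  have h1 : p 0 ^ 2 + p 1 ^ 2 = 1 := hp
  obtain ⟨a, c⟩ := half_angle (p := σ * p 0) (q := σ * p 1)
    (by linear_combination (p 0 ^ 2 + p 1 ^ 2) * hσ + h1) h
  have a0 : σ * (σ * p 0) = p 0 := by linear_combination (p 0) * hσ
  have a1 : σ * (σ * p 1) = p 1 := by linear_combination (p 1) * hσ
  simp only [GG, ang, add_zero, one_mul, a, c, a0, a1]
  ext i
  fin_cases i
  · exact vec0 _ _ _
  · exact vec1 _ _ _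
  · exact vec2 _ _ _

theorem GG_norm {σ : ℝ} (hσ : σ ^ 2 = 1) (t s a : ℝ) :
    ‖a • vec (σ * (-sin ((1 + t) * s) * (1 + t))) (σ * (cos ((1 + t) * s) * (1 + t))) 0‖ ^ 2 =
      (1 + t) ^ 2 * a ^ 2 := by
  rw [nsq]
  simp only [PiLp.smul_apply, vec0, vec1, vec2, smul_eq_mul]
  linear_combination (1 + t) ^ 2 * a ^ 2 * σ ^ 2 * sin_sq_add_cos_sq ((1 + t) * s)
    + (1 + t) ^ 2 * a ^ 2 * hσ

theorem angle_aux [ConnectedSpace M]
    (b : ∀ x : M, OrthonormalBasis ι ℝ (TangentSpace 𝓘(ℝ, E) x))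
    (μ : Measure M) [μ.IsOpenPosMeasure] {φ : M → R3} (h : IsHarmonic (fun x => b x) μ Cyl φ) (σ y₀ : ℝ)
    (hσ : σ ^ 2 = 1) (θ : M → ℝ) (hθ : ContMDiff 𝓘(ℝ, E) 𝓘(ℝ, ℝ) ∞ θ)
    (e0 : ∀ x, GG σ y₀ 0 (θ x) = φ x) (x y : M) : θ x = θ y := by
  obtain ⟨hs, hc, hf, hv⟩ := h
  have e1 : ∀ t x v, ‖dmap E (fun x => GG σ y₀ t (θ x)) x v‖ ^ 2 =
      (1 + t) ^ 2 * (dmap E θ x v) ^ 2 := by
    intro t x v
    have := dmap_comp (hθ.mdifferentiableAt (by simp) (x := x)) (GG_deriv σ y₀ t (θ x)).hasFDerivAt v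
    rw [← GG_norm hσ t (θ x)]
    exact congrArg (fun z : R3 => ‖z‖ ^ 2) this
  have hd := hv (fun p => GG σ y₀ p.1 (θ p.2)) (var_smooth (GG σ y₀) (GG_smooth σ y₀) hθ)
    (fun p => GG_cyl hσ _ _ _) e0
  have L0 : (fun x => GG σ y₀ 0 (θ x)) = φ := funext e0
  dsimp only at hd
  refine crit2 b μ (fun t x => GG σ y₀ t (θ x)) hθ ?_ ?_ (by rw [L0]; exact hf) hd x y
  · intro t ht x v
    rw [e1, e1]
    generalize dmap E θ x v = w
    nlinarith [sq_nonneg (t * w)]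
  · intro t ht x v
    rw [e1, e1]
    generalize dmap E θ x v = w
    have h1 : (1 + t) ^ 2 ≤ 4 := by nlinarith [ht.1, ht.2]
    nlinarith [sq_nonneg w]

theorem angle [ConnectedSpace M] (b : ∀ x : M, OrthonormalBasis ι ℝ (TangentSpace 𝓘(ℝ, E) x))
    (μ : Measure M) [μ.IsOpenPosMeasure] {φ : M → R3} (h : IsHarmonic (fun x => b x) μ Cyl φ) (σ y₀ : ℝ)
    (hσ : σ ^ 2 = 1) (hy : ∀ x, φ x 2 = y₀) (hne : ∀ x, 1 + σ * φ x 0 ≠ 0) (x y : M) :
    φ x = φ y := by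
  have e0 : ∀ x, GG σ y₀ 0 ((ang σ ∘ φ) x) = φ x := fun x => by
    rw [← hy x]
    exact GG_ang hσ (h.2.1 x) (hne x)
  rw [← e0 x, ← e0 y, angle_aux b μ h σ y₀ hσ (ang σ ∘ φ)
    (fun x => (ang_smooth (hne x)).comp_contMDiffAt (h.1 x)) e0 x y]

theorem no_harmonic [ConnectedSpace M]
    (b : ∀ x : M, OrthonormalBasis ι ℝ (TangentSpace 𝓘(ℝ, E) x))
    (μ : Measure M) [μ.IsOpenPosMeasure] {φ : M → R3} (h : IsHarmonic (fun x => b x) μ Cyl φ)
    (hV : ∀ x, φ x ∈ VV) (x y : M) : φ x = φ y := by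
  have hy := fun z => height b μ h z x
  rcases le_total 0 (φ x 2) with h0 | h0
  · refine angle b μ h (-1) _ (by norm_num) hy (fun z hz => (hV z).2.1 ⟨by linarith, ?_⟩) x y
    rwa [hy]
  · refine angle b μ h 1 _ (by norm_num) hy (fun z hz => (hV z).2.2 ⟨by linarith, ?_⟩) x y
    rwa [hy]

theorem no_harm : NoHarmonicIn Cyl VV := by
  intro E M ι _ _ _ _ _ _ _ _ _ _ _ _ _ μ _ _ b φ hb h hV
  let b' : ∀ x : M, OrthonormalBasis ι ℝ (TangentSpace 𝓘(ℝ, E) x) := fun x =>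
    OrthonormalBasis.mk (hb x).1 (hb x).2.ge
  have e : (fun x => ⇑(b' x)) = b := funext fun x => OrthonormalBasis.coe_mk _ _
  exact no_harmonic b' μ (e ▸ h) hV

theorem VV_open : ∃ U : Set R3, IsOpen U ∧ VV = U ∩ Cyl := by
  refine ⟨({p : R3 | p 0 = 1} ∩ {p | 0 ≤ p 2})ᶜ ∩ ({p : R3 | p 0 = -1} ∩ {p | p 2 ≤ 0})ᶜ, ?_, ?_⟩
  · refine IsOpen.inter (isOpen_compl_iff.2 (IsClosed.inter ?_ ?_))
      (isOpen_compl_iff.2 (IsClosed.inter ?_ ?_))
    · exact isClosed_eq (by fun_prop) (by fun_prop)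
    · exact isClosed_le (by fun_prop) (by fun_prop)
    · exact isClosed_eq (by fun_prop) (by fun_prop)
    · exact isClosed_le (by fun_prop) (by fun_prop)
  · ext p
    exact ⟨fun h => ⟨⟨h.2.1, h.2.2⟩, h.1⟩, fun h => ⟨h.2, h.1.1, h.1.2⟩⟩

end Pool.Agent.H.MP_267b52_gt
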